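import Pool.Agent.Y651.RR.Cyc

/-!
# MP_88c4fb_an: the special case `x_n = (β_1 x_(n-1) + β_2 x_(n-2)) / (B_2 x_(n-2) + B_4 x_(n-4))` has unbounded
solutions
-/

set_option autoImplicit false

namespace Pool.Agent.Results.MP_88c4fb_an.UnboundedTwoTwo

/-- `b 0 = α`, `b j = β_j`, `c 0 = A`, `c j = B_j`; exactly the coefficients with index in `N`, in `D`, are positive,
the others are zero. -/
def Coeff (k : ℕ) (N : Finset ℕ) (b : ℕ → ℝ) : Prop := ∀ j ≤ k, (j ∈ N → 0 < b j) ∧ (j ∉ N → b j = 0)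

/-- `x 0, …, x (k - 1)` are the initial values of an admissible solution `x` of the recurrence `(E_k)`. -/
def Solution (k : ℕ) (b c x : ℕ → ℝ) : Prop :=
  (∀ n < k, 0 ≤ x n) ∧
  (∀ n, 0 < c 0 + ∑ j ∈ Finset.Icc 1 k, c j * x (n + k - j)) ∧
  ∀ n, x (n + k) = (b 0 + ∑ j ∈ Finset.Icc 1 k, b j * x (n + k - j)) /
    (c 0 + ∑ j ∈ Finset.Icc 1 k, c j * x (n + k - j))

/-- The special case with positive numerator coefficients `N` and positive denominator coefficients `D` (index `0`: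
`α`, `A`) has bounded solutions only. -/
def BoundedOnly (k : ℕ) (N D : Finset ℕ) : Prop :=
  ∀ b c : ℕ → ℝ, Coeff k N b → Coeff k D c → ∀ x : ℕ → ℝ, Solution k b c x → ∃ M : ℝ, ∀ n, x n ≤ M

/-- the step of the recurrence on four consecutive terms -/
noncomputable def step (s : ℝ × ℝ × ℝ × ℝ) : ℝ × ℝ × ℝ × ℝ :=
  (s.2.1, s.2.2.1, s.2.2.2, (s.2.2.2 + s.2.2.1 / 20) / (s.2.2.1 + s.1))

/-- the sequence of states -/
noncomputable def st : ℕ → ℝ × ℝ × ℝ × ℝ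
  | 0 => (1 / 2000, 1 / 2000, 1 / 2000, 15)
  | n + 1 => step (st n)

/-- the solution -/
noncomputable def xs (n : ℕ) : ℝ := (st n).1

lemma st_eq (n : ℕ) : st n = (xs n, xs (n + 1), xs (n + 2), xs (n + 3)) := rfl

lemma xs_rec (n : ℕ) : xs (n + 4) = (xs (n + 3) + xs (n + 2) / 20) / (xs (n + 2) + xs n) := rfl

lemma pos4 (n : ℕ) : 0 < xs n ∧ 0 < xs (n + 1) ∧ 0 < xs (n + 2) ∧ 0 < xs (n + 3) := by
  induction n with
  | zero =>
    refine ⟨?_, ?_, ?_, ?_⟩ <;> simp [xs, st, step]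
  | succ n ih =>
    obtain ⟨h1, h2, h3, h4⟩ := ih
    refine ⟨h2, h3, h4, ?_⟩
    rw [show n + 1 + 3 = n + 4 by ring, xs_rec]
    positivity

lemma pos (n : ℕ) : 0 < xs n := (pos4 n).1

lemma mul_rec (n : ℕ) : xs (n + 4) * (xs (n + 2) + xs n) = xs (n + 3) + xs (n + 2) / 20 := by
  rw [xs_rec]
  exact div_mul_cancel₀ _ (add_pos (pos _) (pos _)).ne'

/-- the state after `m` cycles of nine steps -/
lemma inv (m : ℕ) : 12 ≤ xs (9 * m + 3) ∧ xs (9 * m + 3) ≤ 20 ∧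
    xs (9 * m) + xs (9 * m + 2) ≤ (3 / 4) ^ m * (1 / 1000) ∧ xs (9 * m + 1) ≤ (3 / 4) ^ m * (1 / 1000) := by
  induction m with
  | zero =>
    refine ⟨?_, ?_, ?_, ?_⟩ <;> simp [xs, st, step] <;> norm_num
  | succ m ih =>
    obtain ⟨h1, h2, h3, h4⟩ := ih
    have he : ((3 : ℝ) / 4) ^ m * (1 / 1000) ≤ 1 / 1000 := by
      have : ((3 : ℝ) / 4) ^ m ≤ 1 := pow_le_one₀ (by norm_num) (by norm_num)
      linarith
    have h := Pool.Agent.Y651.RR.cycle (xs (9 * m)) (xs (9 * m + 1)) (xs (9 * m + 2)) (xs (9 * m + 3))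
      ((3 / 4) ^ m * (1 / 1000)) (xs (9 * m + 4)) (xs (9 * m + 5)) (xs (9 * m + 6)) (xs (9 * m + 7)) (xs (9 * m + 8))
      (xs (9 * m + 9)) (xs (9 * m + 10)) (xs (9 * m + 11)) (xs (9 * m + 12)) (pos _) (pos _) (pos _) h1 h2 he h3 h4
      (pos _) (pos _) (pos _) (pos _) (pos _) (pos _) (pos _) (pos _)
      (mul_rec (9 * m)) (mul_rec (9 * m + 1)) (mul_rec (9 * m + 2)) (mul_rec (9 * m + 3)) (mul_rec (9 * m + 4))
      (mul_rec (9 * m + 5)) (mul_rec (9 * m + 6)) (mul_rec (9 * m + 7)) (mul_rec (9 * m + 8))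
    obtain ⟨_, k1, k2, k3, k4⟩ := h
    have hp : ((3 : ℝ) / 4) ^ (m + 1) * (1 / 1000) = 3 / 4 * ((3 / 4) ^ m * (1 / 1000)) := by
      rw [pow_succ]
      ring
    rw [hp, show 9 * (m + 1) = 9 * m + 9 by ring]
    exact ⟨k1, k2, k3, k4⟩

lemma large (m : ℕ) : 12 * (4 / 3) ^ m * 1000 ≤ xs (9 * m + 4) := by
  obtain ⟨h1, _, h3, _⟩ := inv m
  have h := mul_rec (9 * m)
  have hx := pos (9 * m + 4)
  have hp : (0 : ℝ) < (3 / 4) ^ m := by positivity
  have h5 : xs (9 * m + 4) * (xs (9 * m + 2) + xs (9 * m)) ≤ xs (9 * m + 4) * ((3 / 4) ^ m * (1 / 1000)) :=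
    mul_le_mul_of_nonneg_left (by linarith) hx.le
  have h6 : 12 ≤ xs (9 * m + 4) * ((3 / 4) ^ m * (1 / 1000)) := by
    have := pos (9 * m + 2)
    linarith
  have h7 : ((3 : ℝ) / 4) ^ m * (4 / 3) ^ m = 1 := by
    rw [← mul_pow]
    norm_num
  have h8 : 12 * ((4 : ℝ) / 3) ^ m * 1000 ≤
      (xs (9 * m + 4) * ((3 / 4) ^ m * (1 / 1000))) * ((4 / 3) ^ m * 1000) := by
    have h9 : 12 * ((4 : ℝ) / 3) ^ m * 1000 = 12 * ((4 / 3) ^ m * 1000) := by ring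
    rw [h9]
    exact mul_le_mul_of_nonneg_right h6 (by positivity)
  calc 12 * ((4 : ℝ) / 3) ^ m * 1000
      ≤ (xs (9 * m + 4) * ((3 / 4) ^ m * (1 / 1000))) * ((4 / 3) ^ m * 1000) := h8
    _ = xs (9 * m + 4) * ((3 / 4) ^ m * (4 / 3) ^ m) := by ring
    _ = xs (9 * m + 4) := by rw [h7, mul_one]

/-- the coefficients `β_1 = 1`, `β_2 = 1 / 20` -/
noncomputable def bb (j : ℕ) : ℝ := if j = 1 then 1 else if j = 2 then 1 / 20 else 0

/-- the coefficients `B_2 = B_4 = 1` -/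
noncomputable def cc (j : ℕ) : ℝ := if j = 2 then 1 else if j = 4 then 1 else 0

lemma sumb (n : ℕ) : bb 0 + ∑ j ∈ Finset.Icc 1 4, bb j * xs (n + 4 - j) = xs (n + 3) + xs (n + 2) / 20 := by
  have h : Finset.Icc 1 4 = {1, 2, 3, 4} := by decide
  rw [h]
  simp [bb]
  ring

lemma sumc (n : ℕ) : cc 0 + ∑ j ∈ Finset.Icc 1 4, cc j * xs (n + 4 - j) = xs (n + 2) + xs n := by
  have h : Finset.Icc 1 4 = {1, 2, 3, 4} := by decide
  rw [h]
  simp [cc]

/-- The special case of `(E_4)` with exactly `β_1, β_2, B_2, B_4` positive has unbounded solutions. -/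
theorem result : ¬ BoundedOnly 4 {1, 2} {2, 4} := by
  intro h
  have hb : Coeff 4 {1, 2} bb := by
    intro j hj
    interval_cases j <;> simp [bb]
  have hc : Coeff 4 {2, 4} cc := by
    intro j hj
    interval_cases j <;> simp [cc]
  have hs : Solution 4 bb cc xs := by
    refine ⟨fun n _ => (pos n).le, fun n => ?_, fun n => ?_⟩
    · rw [sumc]
      exact add_pos (pos _) (pos _)
    · rw [sumb, sumc]
      exact xs_rec n
  obtain ⟨M, hM⟩ := h bb cc hb hc xs hs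
  obtain ⟨m, hm⟩ := pow_unbounded_of_one_lt M (show (1 : ℝ) < 4 / 3 by norm_num)
  have h1 := large m
  have h2 := hM (9 * m + 4)
  have h3 : (0 : ℝ) < (4 / 3) ^ m := by positivity
  linarith

end Pool.Agent.Results.MP_88c4fb_an.UnboundedTwoTwo
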